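import Pool.Agent.Q120.TT.Neg

/-!
# Mixtures with laws of small relative entropy: general constructions
-/

set_option autoImplicit false

namespace Pool.Agent.Q120.BH

open Finset MeasureTheory Filter Pool.Agent.Q120.ET Pool.Agent.Q120.GM Pool.Agent.Q120.TT
open scoped Topology

theorem meas_event {Ω : Type} [MeasurableSpace Ω] {A : Ω → Set ℕ} (hA : IsRandomSet A) (B : Finset ℕ) (F : Finset ℕ → Prop) :
    MeasurableSet {ω | F (tr A B ω)} := by
  classical
  have h1 : {ω | F (tr A B ω)} = ⋃ T ∈ B.powerset.filter F, {ω | tr A B ω = T} := by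
    ext ω
    simp only [Set.mem_ofPred_eq, Set.mem_iUnion, exists_prop, mem_filter, mem_powerset]
    constructor
    · intro h
      refine ⟨_, ⟨fun n hn => (mem_tr.1 hn).1, h⟩, rfl⟩
    · rintro ⟨T, ⟨_, h⟩, h2⟩
      rw [h2]; exact h
  rw [h1]
  refine Finset.measurableSet_biUnion _ (fun T hT => ?_)
  rw [← law_set_eq A (mem_powerset.1 (mem_filter.1 hT).1)]
  exact measurableSet_law hA B T

section

variable {p : ℕ → ℝ} {w d : ℕ → ℝ} {K : ℕ} {R : ℕ → Finset ℕ → ℝ} {Cl : ℕ → Finset ℕ → Prop}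

/-- Independent blocks. -/
theorem miss_gen (hmixl : J_MIXL) (hexi : J_EXI) (hp : ∀ n, 0 ≤ p n ∧ p n ≤ 1) (hw : ∀ k, K ≤ k → 0 < w k)
    (hR : ∀ k, IsLaw p (block k) (R k)) (hR1 : ∀ k, K ≤ k → ∀ T ∈ (block k).powerset, R k T ≠ 0 → Cl k T)
    (hR2 : ∀ k, K ≤ k → entOf p (block k) (R k) ≤ w k) (hd : ∀ k, 0 ≤ d k) :
    ∃ (Ω : Type) (_ : MeasurableSpace Ω) (μ : Measure Ω) (_ : IsProbabilityMeasure μ) (A : Ω → Set ℕ), Near p d μ A ∧
      (∀ k, K ≤ k → min 1 (d k / w k) ≤ μ.real {ω | Cl k (tr A (block k) ω)}) ∧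
        (¬ Summable (fun k : ℕ => d k / w k) → ∀ᵐ ω ∂μ, ∃ᶠ k in atTop, Cl k (tr A (block k) ω)) := by
  classical
  obtain ⟨q, hq⟩ : ∃ q : ℕ → ℝ, q = fun k => min 1 (max 0 (d k / w k)) := ⟨_, rfl⟩
  have hq0 : ∀ k, 0 ≤ q k := by
    intro k
    rw [hq]
    exact le_min zero_le_one (le_max_left _ _)
  have hq1 : ∀ k, q k ≤ 1 := by
    intro k
    rw [hq]
    exact min_le_left _ _
  have hq2 : ∀ k, K ≤ k → q k = min 1 (d k / w k) := by
    intro k hk
    have h1 := hd k
    have h2 := hw k hk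
    simp only [hq]
    rw [max_eq_right (by positivity)]
  have hmix := fun k => (hmixl p (block k) (fun n _ => hp n)).2 (R k) (hR k) (q k) (hq0 k) (hq1 k)
  obtain ⟨Ω, hΩ, μ, hμ, A, hA1, hA2, hA3, hA4⟩ := hexi p (TT.mix p q R) (fun k => (hmix k).1) (fun n => (hp n).1)
  have hprob : ∀ k, K ≤ k → q k ≤ μ.real {ω | Cl k (tr A (block k) ω)} := by
    intro k hk
    rw [real_event (μ := μ) hA1 (block k) (fun T => Cl k T)]
    have h1 : ∑ T ∈ (block k).powerset with Cl k T, lawOn μ A (block k) T =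
        ∑ T ∈ (block k).powerset with Cl k T, TT.mix p q R k T :=
      sum_congr rfl (fun T hT => hA3 k T (mem_filter.1 hT).1)
    rw [h1]
    have h2 : ∑ T ∈ (block k).powerset with Cl k T, q k * R k T ≤ ∑ T ∈ (block k).powerset with Cl k T, TT.mix p q R k T := by
      refine sum_le_sum (fun T hT => ?_)
      unfold TT.mix
      have h3 := prodOn_nonneg (p := p) (fun n _ => hp n) (mem_powerset.1 (mem_filter.1 hT).1)
      have h4 := hq1 k
      nlinarith [mul_nonneg (sub_nonneg.2 h4) h3]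
    refine le_trans (le_of_eq ?_) h2
    rw [← mul_sum]
    have h3 : ∑ T ∈ (block k).powerset with Cl k T, R k T = ∑ T ∈ (block k).powerset, R k T := by
      rw [sum_filter]
      refine sum_congr rfl (fun T hT => ?_)
      split_ifs with h
      · rfl
      · by_contra hne
        exact h (hR1 k hk T hT (Ne.symm hne))
    rw [h3, (hR k).total, mul_one]
  refine ⟨Ω, hΩ, μ, hμ, A, ⟨hA1, hA2, ?_⟩, ?_, ?_⟩
  · filter_upwards [eventually_ge_atTop K] with k hk
    have hwk := hw k hk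
    unfold relEnt
    rw [entOf_congr (hA3 k)]
    refine (hmix k).2.trans ((mul_le_mul_of_nonneg_left (hR2 k hk) (hq0 k)).trans ?_)
    have h1 : q k ≤ d k / w k := by rw [hq2 k hk]; exact min_le_right _ _
    calc q k * w k ≤ d k / w k * w k := mul_le_mul_of_nonneg_right h1 hwk.le
      _ = d k := by field_simp
  · intro k hk
    rw [← hq2 k hk]
    exact hprob k hk
  · intro hns
    have h1 : ¬ Summable (fun k => μ.real {ω | Cl k (tr A (block k) ω)}) := by
      intro hsum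
      apply hns
      have h2 : Summable q := by
        refine (summable_nat_add_iff K).1 ?_
        refine Summable.of_nonneg_of_le (fun k => hq0 _) (fun k => hprob (k + K) (by omega)) ((summable_nat_add_iff K).2 hsum)
      have h3 : ∀ᶠ k in atTop, q k < 1 := h2.tendsto_atTop_zero.eventually (gt_mem_nhds one_pos)
      obtain ⟨N, hN⟩ := eventually_atTop.1 h3
      refine (summable_nat_add_iff (max N K)).1 ?_
      have h4 : Summable (fun k => q (k + max N K)) := (summable_nat_add_iff (max N K)).2 h2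
      refine h4.congr (fun k => ?_)
      have h5 := hN (k + max N K) (by have := le_max_left N K; omega)
      have h6 := hq2 (k + max N K) (by have := le_max_right N K; omega)
      rw [h6] at h5 ⊢
      rcases min_choice 1 (d (k + max N K) / w (k + max N K)) with h7 | h7
      · exfalso
        rw [h7] at h5
        exact lt_irrefl _ h5
      · rw [h7]
    exact hA4 (fun k T => Cl k T) h1

/-- A common coin. -/
theorem coin_gen (hmixl : J_MIXL) (hexc : J_EXC) (hp : ∀ n, 0 ≤ p n ∧ p n ≤ 1)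
    (hR : ∀ k, IsLaw p (block k) (R k)) (hR1 : ∀ k, K ≤ k → ∀ T ∈ (block k).powerset, R k T ≠ 0 → Cl k T)
    {q : ℝ} (hq0 : 0 ≤ q) (hq1 : q ≤ 1) (hR2 : ∀ᶠ k in atTop, q * entOf p (block k) (R k) ≤ d k) :
    ∃ (Ω : Type) (_ : MeasurableSpace Ω) (μ : Measure Ω) (_ : IsProbabilityMeasure μ) (A : Ω → Set ℕ), Near p d μ A ∧
      q ≤ μ.real {ω | ∀ k, K ≤ k → Cl k (tr A (block k) ω)} := by
  classical
  have hP : ∀ k, IsLaw p (block k) (prodOn p (block k)) := fun k => (hmixl p (block k) (fun n _ => hp n)).1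
  obtain ⟨Ω, hΩ, μ, hμ, A, hA1, hA2, hA3, hA4⟩ := hexc p (fun k => prodOn p (block k)) R hP hR
    (fun n => (hp n).1) q hq0 hq1
  refine ⟨Ω, hΩ, μ, hμ, A, ⟨hA1, hA2, ?_⟩, ?_⟩
  · filter_upwards [hR2] with k hk
    unfold relEnt
    rw [entOf_congr (hA3 k)]
    exact ((hmixl p (block k) (fun n _ => hp n)).2 (R k) (hR k) q hq0 hq1).2.trans hk
  · exact hA4 (fun k T => K ≤ k → Cl k T) (fun k T hT hne hk => hR1 k hk T hT hne)

/-- Almost surely. -/
theorem sure_gen (hmixl : J_MIXL) (hexc : J_EXC) (hp : ∀ n, 0 ≤ p n ∧ p n ≤ 1)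
    (hR : ∀ k, IsLaw p (block k) (R k)) (hR1 : ∀ k, K ≤ k → ∀ T ∈ (block k).powerset, R k T ≠ 0 → Cl k T)
    (hR2 : ∀ᶠ k in atTop, entOf p (block k) (R k) ≤ d k) :
    ∃ (Ω : Type) (_ : MeasurableSpace Ω) (μ : Measure Ω) (_ : IsProbabilityMeasure μ) (A : Ω → Set ℕ), Near p d μ A ∧
      ∀ᵐ ω ∂μ, ∀ k, K ≤ k → Cl k (tr A (block k) ω) := by
  obtain ⟨Ω, hΩ, μ, hμ, A, hA, h⟩ := coin_gen (d := d) hmixl hexc hp hR hR1 zero_le_one le_rfl
    (by filter_upwards [hR2] with k hk; rw [one_mul]; exact hk)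
  refine ⟨Ω, hΩ, μ, hμ, A, hA, ?_⟩
  have h1 : μ.real {ω | ∀ k, K ≤ k → Cl k (tr A (block k) ω)} = 1 := le_antisymm measureReal_le_one h
  have h2 : μ {ω | ∀ k, K ≤ k → Cl k (tr A (block k) ω)} = 1 := by
    have h3 := ENNReal.ofReal_toReal (measure_ne_top μ {ω | ∀ k, K ≤ k → Cl k (tr A (block k) ω)})
    rw [← h3]
    unfold Measure.real at h1
    rw [h1, ENNReal.ofReal_one]
  have hmeas : MeasurableSet {ω | ∀ k, K ≤ k → Cl k (tr A (block k) ω)} := by
    have h3 : {ω | ∀ k, K ≤ k → Cl k (tr A (block k) ω)} = ⋂ k : ℕ, {ω | K ≤ k → Cl k (tr A (block k) ω)} := by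
      ext ω
      simp only [Set.mem_ofPred_eq, Set.mem_iInter]
    rw [h3]
    exact MeasurableSet.iInter (fun k => meas_event hA.rand (block k) (fun T => K ≤ k → Cl k T))
  exact (prob_compl_eq_zero_iff hmeas).2 h2

end

end Pool.Agent.Q120.BH
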