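import Pool.Agent.Q120.TT.Neg
import Pool.Agent.Q224.BH.BCUM
import Pool.Agent.Q257.BH.Wset

/-!
# Project BH, assembly, part one: the deviations for all random sets of the class, positive results
-/

set_option autoImplicit false

namespace Pool.Agent.Q120.BH

open Finset MeasureTheory Filter Pool.Agent.Q120.ET Pool.Agent.Q120.GM Pool.Agent.Q120.CL Pool.Agent.Q120.MG
  Pool.Agent.Q120.HL Pool.Agent.Q112.LE Pool.Agent.Q120.TT Polynomial
open scoped Topology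

/-- The jobs. -/
structure Jobs : Prop where
  entg : J_ENTG
  mixl : J_MIXL
  exi : J_EXI
  exc : J_EXC
  tail : Pool.Agent.Q120.RZ.J_TAIL
  mono : J_MONO
  btail : J_BTAIL
  bmean : J_BMEAN
  bbad : J_BBAD
  bcum : J_BCUM
  bhit : J_BHIT
  delw : J_DELW
  wset : J_WSET

/-- The Bateman–Horn asymptotics. -/
def Asy (S : Set ℕ) (F : ℤ[X]) (m : ℕ) (C : ℝ) : Prop :=
  Tendsto (fun x : ℕ => (hit S F 0 x : ℝ) / (x / Real.log x)) atTop (𝓝 (C / m))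

/-- `S` contains a value `F n`, `n ≥ n₀`, in the block. -/
def HitB (S : Set ℕ) (F : ℤ[X]) (n₀ k : ℕ) : Prop := ∃ n : ℕ, n₀ ≤ n ∧ va F n ∈ block k ∧ va F n ∈ S

/-- The number of values in the block is wrong. -/
def OffB (F : ℤ[X]) (m n₀ : ℕ) (C e : ℝ) (k : ℕ) (S : Set ℕ) : Prop :=
  e * ((2 : ℝ) ^ ((k : ℝ) / m) / k) ≤
    |(hit S F (nu F n₀ k) (nu F n₀ (k + 1)) : ℝ) - C * ((nu F n₀ (k + 1) : ℝ) - nu F n₀ k) / (k * Real.log 2)|

theorem hit_congr {S S' : Set ℕ} {F : ℤ[X]} {a b : ℕ} (h : ∀ n ∈ Ico a b, (va F n ∈ S ↔ va F n ∈ S')) :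
    hit S F a b = hit S' F a b := by
  classical
  unfold hit
  exact congrArg card (filter_congr h)

/-- The number of values in a part of the block only depends on the trace. -/
theorem hit_tr {Ω : Type} [MeasurableSpace Ω] {A : Ω → Set ℕ} {F : ℤ[X]} {k a b : ℕ} (h : ∀ n ∈ Ico a b, va F n ∈ block k)
    (ω : Ω) : hit (A ω) F a b = hit ((tr A (block k) ω : Finset ℕ) : Set ℕ) F a b := by
  refine hit_congr (fun n hn => ?_)
  rw [mem_coe, mem_tr]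
  exact ⟨fun h2 => ⟨h n hn, h2⟩, fun h2 => h2.2⟩

theorem BadB_tr {Ω : Type} [MeasurableSpace Ω] {A : Ω → Set ℕ} {F : ℤ[X]} {m n₀ k : ℕ} {C e : ℝ} (hM : Mono F n₀) (ω : Ω) :
    BadB F m n₀ C k e (A ω) ↔ BadB F m n₀ C k e ((tr A (block k) ω : Finset ℕ) : Set ℕ) := by
  unfold BadB
  refine exists_congr (fun b => and_congr_right (fun _ => and_congr_right (fun hb => ?_)))
  rw [hit_tr (k := k) (fun n hn => Pool.Agent.Q224.BH.nu_block hM n (by rw [mem_Ico] at hn ⊢; omega))]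

/-- A value in the block. -/
theorem hitB_iff {S : Set ℕ} {F : ℤ[X]} {n₀ k : ℕ} (hM : Mono F n₀) :
    HitB S F n₀ k ↔ 1 ≤ hit S F (nu F n₀ k) (nu F n₀ (k + 1)) := by
  classical
  unfold hit
  rw [Nat.one_le_iff_ne_zero, ← Nat.pos_iff_ne_zero, card_pos]
  constructor
  · rintro ⟨n, h1, h2, h3⟩
    refine ⟨n, ?_⟩
    rw [mem_filter, mem_Ico]
    rw [block, mem_Ico] at h2
    exact ⟨⟨Pool.Agent.Q224.BH.nu_le h1 h2.1, Pool.Agent.Q224.BH.lt_nu hM h2.2⟩, h3⟩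
  · rintro ⟨n, hn⟩
    rw [mem_filter] at hn
    refine ⟨n, ?_, Pool.Agent.Q224.BH.nu_block hM n hn.1, hn.2⟩
    exact (Pool.Agent.Q224.BH.nu_mem hM k).1.trans (mem_Ico.1 hn.1).1

theorem small8 {z : ℕ → ℕ} (hz0 : Tendsto (fun k : ℕ => (z k : ℝ) / k) atTop (𝓝 0)) : ∀ᶠ k : ℕ in atTop, 8 * z k ≤ k := by
  filter_upwards [hz0.eventually (gt_mem_nhds (show (0 : ℝ) < 1 / 8 by norm_num)), eventually_ge_atTop 1] with k hk hk1
  have hk0 : (0 : ℝ) < k := by exact_mod_cast hk1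
  rw [div_lt_iff₀ hk0] at hk
  have : (8 * z k : ℝ) ≤ k := by linarith
  exact_mod_cast this

theorem div_w {k : ℕ} (hk : 1 ≤ k) {m : ℕ} {c x : ℝ} (hc : 0 < c) :
    x / (c * ((2 : ℝ) ^ ((k : ℝ) / m) / k)) = 1 / c * (x * k / (2 : ℝ) ^ ((k : ℝ) / m)) := by
  have : (0 : ℝ) < k := by exact_mod_cast hk
  have h2 : (0 : ℝ) < (2 : ℝ) ^ ((k : ℝ) / m) := by positivity
  field_simp

theorem rp_sum {m : ℕ} (hm : 1 ≤ m) : Summable (fun k : ℕ => (k : ℝ) / (2 : ℝ) ^ ((k : ℝ) / m)) := by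
  have hm0 : (0 : ℝ) < m := by exact_mod_cast hm
  obtain ⟨r, hr⟩ : ∃ r : ℝ, r = (2 : ℝ) ^ (-(1 / (m : ℝ))) := ⟨_, rfl⟩
  have hr0 : 0 < r := by rw [hr]; positivity
  have hr1 : r < 1 := by
    rw [hr]
    exact Real.rpow_lt_one_of_one_lt_of_neg (by norm_num) (by rw [neg_lt_zero]; positivity)
  have h := summable_pow_mul_geometric_of_norm_lt_one 1 (r := r) (by rw [Real.norm_eq_abs, abs_of_pos hr0]; exact hr1)
  refine h.congr (fun k => ?_)
  have h1 : r ^ k = ((2 : ℝ) ^ ((k : ℝ) / m))⁻¹ := by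
    rw [hr, ← Real.rpow_natCast, ← Real.rpow_mul (by norm_num), ← Real.rpow_neg (by norm_num)]
    congr 1
    field_simp
  rw [h1, pow_one]
  rfl

section

variable {z : ℕ → ℕ} {F : ℤ[X]} {m n₀ : ℕ} {C : ℝ} {d : ℕ → ℝ}

/-- The bad event is unlikely for every random set of the class. -/
theorem bad_near (J : Jobs) (hz : Tendsto z atTop atTop) (hz0 : Tendsto (fun k : ℕ => (z k : ℝ) / k) atTop (𝓝 0))
    (hF : Good F m C) (hM : Mono F n₀) {e : ℝ} (he : 0 < e) : ∃ c : ℝ, 0 < c ∧ ∀ (Ω : Type) [MeasurableSpace Ω]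
      (μ : Measure Ω) [IsProbabilityMeasure μ] (A : Ω → Set ℕ) (d : ℕ → ℝ), Near (pr z) d μ A →
        ∀ᶠ k : ℕ in atTop, μ.real {ω | BadB F m n₀ C k e (A ω)} ≤ (1 + d k) / (c * ((2 : ℝ) ^ ((k : ℝ) / m) / k)) := by
  classical
  obtain ⟨c, hc, h⟩ := J.bbad J.tail J.mono J.btail J.bmean z F m C n₀ hF hM hz hz0 e he
  refine ⟨c, hc, fun Ω _ μ _ A d hA => ?_⟩
  filter_upwards [h, law_ok (small8 hz0) hA, hA.ent, eventually_ge_atTop 1] with k hk hlaw hent hk1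
  have hk0 : (0 : ℝ) < k := by exact_mod_cast hk1
  have h1 := J.entg (pr z) (block k) (fun n _ => pr_ok z n) _ hlaw
    (fun T => BadB F m n₀ C k e ((T : Finset ℕ) : Set ℕ)) (c * ((2 : ℝ) ^ ((k : ℝ) / m) / k)) (by positivity) hk
  have h2 := real_event (μ := μ) hA.rand (block k) (fun T => BadB F m n₀ C k e ((T : Finset ℕ) : Set ℕ))
  have h3 : {ω | BadB F m n₀ C k e (A ω)} = {ω | BadB F m n₀ C k e ((tr A (block k) ω : Finset ℕ) : Set ℕ)} := by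
    ext ω
    simp only [Set.mem_ofPred_eq]
    exact BadB_tr hM ω
  rw [h3, h2]
  refine h1.trans ?_
  exact div_le_div_of_nonneg_right (by unfold relEnt at hent; linarith) (by positivity)

/-- Almost surely. -/
theorem all_asy (J : Jobs) (hz : Tendsto z atTop atTop) (hz0 : Tendsto (fun k : ℕ => (z k : ℝ) / k) atTop (𝓝 0))
    (hF : Good F m C) (hM : Mono F n₀) (hs : Summable (fun k : ℕ => d k * k / (2 : ℝ) ^ ((k : ℝ) / m))) :
    AllNear (pr z) d (fun S => Asy S F m C) := by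
  intro Ω _ μ _ A hA
  have h1 : ∀ j : ℕ, ∀ᵐ ω ∂μ, ∀ᶠ k : ℕ in atTop, ¬ BadB F m n₀ C k (1 / ((j : ℝ) + 1)) (A ω) := by
    intro j
    obtain ⟨c, hc, h⟩ := bad_near J hz hz0 hF hM (e := 1 / ((j : ℝ) + 1)) (by positivity)
    have h2 := h Ω μ A d hA
    have h3 : Summable (fun k : ℕ => 1 / c * ((k : ℝ) / (2 : ℝ) ^ ((k : ℝ) / m)) +
        1 / c * (d k * k / (2 : ℝ) ^ ((k : ℝ) / m))) := ((rp_sum hF.pos).mul_left _).add (hs.mul_left _)
    refine bc (μ := μ) (B := fun k => {ω | BadB F m n₀ C k (1 / ((j : ℝ) + 1)) (A ω)}) h3 ?_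
    filter_upwards [h2, eventually_ge_atTop 1] with k hk hk1
    refine hk.trans (le_of_eq ?_)
    rw [div_w hk1 hc]
    ring
  filter_upwards [ae_all_iff.2 h1] with ω hω
  refine J.bcum J.mono F m C n₀ (A ω) hF hM (fun e he => ?_)
  obtain ⟨j, hj⟩ := exists_nat_one_div_lt he
  filter_upwards [hω j] with k hk hbad
  apply hk
  obtain ⟨b, hb1, hb2, hb3⟩ := hbad
  refine ⟨b, hb1, hb2, le_trans ?_ hb3⟩
  exact mul_le_mul_of_nonneg_right hj.le (by positivity)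

/-- In probability. -/
theorem van_off (J : Jobs) (hz : Tendsto z atTop atTop) (hz0 : Tendsto (fun k : ℕ => (z k : ℝ) / k) atTop (𝓝 0))
    (hF : Good F m C) (hM : Mono F n₀) (hs : Tendsto (fun k : ℕ => d k * k / (2 : ℝ) ^ ((k : ℝ) / m)) atTop (𝓝 0))
    {e : ℝ} (he : 0 < e) : VanNear (pr z) d (fun k S => OffB F m n₀ C e k S) := by
  intro Ω _ μ _ A hA
  obtain ⟨c, hc, h⟩ := bad_near J hz hz0 hF hM he
  have h1 : Tendsto (fun k : ℕ => 1 / c * ((k : ℝ) / (2 : ℝ) ^ ((k : ℝ) / m)) +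
      1 / c * (d k * k / (2 : ℝ) ^ ((k : ℝ) / m))) atTop (𝓝 (1 / c * 0 + 1 / c * 0)) :=
    ((rp_sum hF.pos).tendsto_atTop_zero.const_mul _).add (hs.const_mul _)
  rw [mul_zero, add_zero] at h1
  refine squeeze_zero' (Eventually.of_forall (fun k => measureReal_nonneg)) ?_ h1
  filter_upwards [h Ω μ A d hA, eventually_ge_atTop 1] with k hk hk1
  have h2 : μ.real {ω | OffB F m n₀ C e k (A ω)} ≤ μ.real {ω | BadB F m n₀ C k e (A ω)} :=
    measureReal_mono (fun ω hω => ⟨nu F n₀ (k + 1), Pool.Agent.Q224.BH.nu_mono hM k, le_rfl, hω⟩) (measure_ne_top _ _)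
  refine h2.trans (hk.trans (le_of_eq ?_))
  rw [div_w hk1 hc]
  ring

/-- A block without values is wrong. -/
theorem off_of_not_hit (J : Jobs) (hF : Good F m C) (hM : Mono F n₀) : ∃ e : ℝ, 0 < e ∧ ∀ᶠ k : ℕ in atTop,
    ∀ S : Set ℕ, ¬ HitB S F n₀ k → OffB F m n₀ C e k S := by
  have hl : 0 < Real.log 2 := Real.log_pos (by norm_num)
  have hC := hF.Cpos
  obtain ⟨_, ⟨c, hc, hc1⟩, _⟩ := J.mono F (by rw [hF.deg]; exact hF.pos) hF.lead
  have hν := hc1 n₀ hM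
  rw [hF.deg] at hν
  have hν1 : Tendsto (fun k : ℕ => (nu F n₀ (k + 1) : ℝ) / (2 : ℝ) ^ (((k + 1 : ℕ) : ℝ) / m)) atTop (𝓝 c) :=
    hν.comp (tendsto_add_atTop_nat 1)
  obtain ⟨g, hg⟩ : ∃ g : ℝ, g = (2 : ℝ) ^ (1 / (m : ℝ)) := ⟨_, rfl⟩
  have hg1 : 1 < g := by rw [hg]; exact Pool.Agent.Q224.BH.one_lt_rpow hF.pos
  have h1 : Tendsto (fun k : ℕ => (nu F n₀ (k + 1) : ℝ) / (2 : ℝ) ^ (((k + 1 : ℕ) : ℝ) / m) * g -
      (nu F n₀ k : ℝ) / (2 : ℝ) ^ ((k : ℝ) / m)) atTop (𝓝 (c * g - c)) := (hν1.mul_const _).sub hν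
  have h2 : 0 < c * g - c := by nlinarith
  refine ⟨C * ((c * g - c) / 2) / Real.log 2, by positivity, ?_⟩
  filter_upwards [h1.eventually (lt_mem_nhds (show (c * g - c) / 2 < c * g - c by linarith)), eventually_ge_atTop 1]
    with k hk hk1 S hS
  have hk0 : (0 : ℝ) < k := by exact_mod_cast hk1
  rw [hitB_iff hM, not_le, Nat.lt_one_iff] at hS
  unfold OffB
  rw [hS, Nat.cast_zero, zero_sub, abs_neg]
  rw [Pool.Agent.Q224.BH.rpow_succ, ← hg] at hk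
  obtain ⟨P, hP⟩ : ∃ P : ℝ, P = (2 : ℝ) ^ ((k : ℝ) / m) := ⟨_, rfl⟩
  have hP0 : 0 < P := by rw [hP]; positivity
  rw [← hP] at hk ⊢
  have e1 : (nu F n₀ (k + 1) : ℝ) / (P * g) * g - nu F n₀ k / P = ((nu F n₀ (k + 1) : ℝ) - nu F n₀ k) / P := by
    have : g ≠ 0 := by positivity
    field_simp
  rw [e1, lt_div_iff₀ hP0] at hk
  refine le_trans ?_ (le_abs_self _)
  calc C * ((c * g - c) / 2) / Real.log 2 * (P / k) = C * ((c * g - c) / 2 * P) / (k * Real.log 2) := by field_simp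
    _ ≤ C * ((nu F n₀ (k + 1) : ℝ) - nu F n₀ k) / (k * Real.log 2) :=
        div_le_div_of_nonneg_right (mul_le_mul_of_nonneg_left hk.le hC.le) (by positivity)

/-- Infinitely many values. -/
theorem all_inf (J : Jobs) (hz : Tendsto z atTop atTop) (hz0 : Tendsto (fun k : ℕ => (z k : ℝ) / k) atTop (𝓝 0))
    (hF : Good F m C) (hM : Mono F n₀)
    (hs : ∀ c : ℝ, 0 < c → ∃ᶠ k : ℕ in atTop, d k * k / (2 : ℝ) ^ ((k : ℝ) / m) < c) :
    AllNear (pr z) d (fun S => {n : ℕ | va F n ∈ S}.Infinite) := by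
  intro Ω _ μ _ A hA
  obtain ⟨e, he0, he⟩ := off_of_not_hit J hF hM
  obtain ⟨c, hc, h⟩ := bad_near J hz hz0 hF hM he0
  have h1 : ∀ N : ℕ, μ {ω | ∀ n : ℕ, N ≤ n → ¬ va F n ∈ A ω} = 0 := by
    intro N
    obtain ⟨E, hE⟩ : ∃ E : Set Ω, E = {ω | ∀ n : ℕ, N ≤ n → ¬ va F n ∈ A ω} := ⟨_, rfl⟩
    rw [← hE]
    have h2 : ∀ ε : ℝ, 0 < ε → μ.real E ≤ ε := by
      intro ε hε
      have e1 : ∀ᶠ k : ℕ in atTop, (k : ℝ) / (2 : ℝ) ^ ((k : ℝ) / m) < c * ε / 2 :=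
        (rp_sum hF.pos).tendsto_atTop_zero.eventually (gt_mem_nhds (by positivity))
      have e2 : ∀ᶠ k : ℕ in atTop, N ≤ nu F n₀ k := (Pool.Agent.Q257.BH.nu_tendsto hM).eventually_ge_atTop N
      have e3 := (((h Ω μ A d hA).and he).and (eventually_ge_atTop 1)).and (e1.and e2)
      obtain ⟨k, hk, ⟨⟨hk1, hk2⟩, hk4⟩, hk5, hk6⟩ := ((hs (c * ε / 2) (by positivity)).and_eventually e3).exists
      have e4 : E ⊆ {ω | BadB F m n₀ C k e (A ω)} := by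
        intro ω hω
        rw [hE] at hω
        refine ⟨nu F n₀ (k + 1), Pool.Agent.Q224.BH.nu_mono hM k, le_rfl, hk2 _ ?_⟩
        rw [hitB_iff hM]
        intro hcon
        have hne : 0 < hit (A ω) F (nu F n₀ k) (nu F n₀ (k + 1)) := hcon
        classical
        unfold hit at hne
        rw [card_pos] at hne
        obtain ⟨n, hn⟩ := hne
        rw [mem_filter, mem_Ico] at hn
        exact hω n (hk6.trans hn.1.1) hn.2
      have e5 : μ.real E ≤ μ.real {ω | BadB F m n₀ C k e (A ω)} := measureReal_mono e4 (measure_ne_top _ _)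
      refine e5.trans (hk1.trans ?_)
      rw [div_w hk4 hc, add_mul, one_mul, add_div]
      have e6 : (k : ℝ) / (2 : ℝ) ^ ((k : ℝ) / m) + d k * k / (2 : ℝ) ^ ((k : ℝ) / m) ≤ c * ε := by linarith
      calc 1 / c * ((k : ℝ) / (2 : ℝ) ^ ((k : ℝ) / m) + d k * k / (2 : ℝ) ^ ((k : ℝ) / m)) ≤ 1 / c * (c * ε) :=
            mul_le_mul_of_nonneg_left e6 (by positivity)
        _ = ε := by field_simp
    have h3 : μ.real E = 0 := le_antisymm (le_of_forall_pos_le_add (fun ε hε => by simpa using h2 ε hε)) measureReal_nonneg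
    exact (measureReal_eq_zero_iff).1 h3
  have h2 : ∀ᵐ ω ∂μ, ∀ N : ℕ, ¬ ∀ n : ℕ, N ≤ n → ¬ va F n ∈ A ω := by
    rw [ae_all_iff]
    intro N
    rw [ae_iff]
    have e1 : {ω | ¬ ¬ ∀ n : ℕ, N ≤ n → ¬ va F n ∈ A ω} = {ω | ∀ n : ℕ, N ≤ n → ¬ va F n ∈ A ω} := by
      ext ω
      simp only [Set.mem_ofPred_eq, not_not]
    rw [e1]
    exact h1 N
  filter_upwards [h2] with ω hω
  rw [Set.infinite_iff_exists_gt]
  intro N
  have h3 := hω (N + 1)
  push Not at h3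
  obtain ⟨n, hn, hn2⟩ := h3
  exact ⟨n, hn2, by omega⟩

end

end Pool.Agent.Q120.BH
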