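import Pool.Agent.Q120.BH.Main
import Pool.Agent.Q120.BH.Gen
import Pool.Agent.Q225.BH.BTAIL

/-!
# Project BH, assembly, part two: the constructions and the thresholds
-/

set_option autoImplicit false

namespace Pool.Agent.Q120.BH

open Finset MeasureTheory Filter Pool.Agent.Q120.ET Pool.Agent.Q120.GM Pool.Agent.Q120.CL Pool.Agent.Q120.MG
  Pool.Agent.Q120.HL Pool.Agent.Q112.LE Pool.Agent.Q120.TT Polynomial
open scoped Topology

section

variable {z : ℕ → ℕ} {F : ℤ[X]} {m n₀ : ℕ} {C : ℝ} {d : ℕ → ℝ}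

open Classical in
/-- The laws without elements of `W`, for all blocks. -/
theorem seqW (J : Jobs) (hz8 : ∀ᶠ k : ℕ in atTop, 8 * z k ≤ k) (W : Set ℕ) : ∃ (K : ℕ) (R : ℕ → Finset ℕ → ℝ),
    (∀ k, IsLaw (pr z) (block k) (R k)) ∧ ∀ k, K ≤ k → (∀ T ∈ (block k).powerset, R k T ≠ 0 → ∀ n ∈ T, n ∉ W) ∧
      (∀ n ∈ block k, pr z n ≤ 1 / 2) ∧
        entOf (pr z) (block k) (R k) ≤ ∑ n ∈ block k with n ∈ W, 2 * pr z n := by
  obtain ⟨K, hK⟩ := eventually_atTop.1 (hz8.and (eventually_ge_atTop 16))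
  have h1 : ∀ k : ℕ, ∃ R : Finset ℕ → ℝ, IsLaw (pr z) (block k) R ∧
      (K ≤ k → (∀ T ∈ (block k).powerset, R T ≠ 0 → ∀ n ∈ T, n ∉ W) ∧ (∀ n ∈ block k, pr z n ≤ 1 / 2) ∧
        entOf (pr z) (block k) R ≤ ∑ n ∈ block k with n ∈ W, 2 * pr z n) := by
    intro k
    by_cases hk : K ≤ k
    · have h2 : ∀ n ∈ block k, 0 ≤ pr z n ∧ pr z n ≤ 1 / 2 :=
        fun n hn => ⟨pr_nonneg z n, Pool.Agent.Q177.TT.pr_small (hK k hk).2 (hK k hk).1 hn⟩
      obtain ⟨h3, h4, h5⟩ := J.delw (pr z) (block k) W h2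
      exact ⟨_, h3, fun _ => ⟨h4, fun n hn => (h2 n hn).2, h5⟩⟩
    · exact ⟨prodOn (pr z) (block k), (J.mixl (pr z) (block k) (fun n _ => pr_ok z n)).1, fun h => absurd h hk⟩
  choose R hR using h1
  exact ⟨K, R, fun k => (hR k).1, fun k hk => (hR k).2 hk⟩

open Classical in
/-- The cost of the values of a polynomial. -/
theorem cost (J : Jobs) (hz : Tendsto z atTop atTop) (hz0 : Tendsto (fun k : ℕ => (z k : ℝ) / k) atTop (𝓝 0))
    (hF : Good F m C) (hM : Mono F n₀) : ∃ C₁ : ℝ, 0 < C₁ ∧ ∀ᶠ k : ℕ in atTop,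
      ∑ n ∈ block k with n ∈ {v | ∃ n, n₀ ≤ n ∧ va F n = v}, 2 * pr z n ≤ C₁ * ((2 : ℝ) ^ ((k : ℝ) / m) / k) := by
  have hl : 0 < Real.log 2 := Real.log_pos (by norm_num)
  have hC := hF.Cpos
  obtain ⟨K, hK, hKev⟩ := Pool.Agent.Q224.BH.nu_upper J.mono hF hM
  refine ⟨2 * (C * (2 * K) / Real.log 2 + 1), by positivity, ?_⟩
  filter_upwards [J.bmean J.mono z F m C n₀ hF hM hz hz0 1 one_pos, (tendsto_add_atTop_nat 1).eventually hKev,
    eventually_ge_atTop 1] with k h1 h2 hk1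
  have hk0 : (0 : ℝ) < k := by exact_mod_cast hk1
  rw [Pool.Agent.Q224.BH.rpow_succ] at h2
  have h3 := (abs_le.1 (h1 (nu F n₀ k) (nu F n₀ (k + 1)) (Pool.Agent.Q224.BH.nu_mem hM k).1
    (Pool.Agent.Q224.BH.nu_mono hM k) (Pool.Agent.Q224.BH.nu_block hM))).2
  obtain ⟨P, hP⟩ : ∃ P : ℝ, P = (2 : ℝ) ^ ((k : ℝ) / m) := ⟨_, rfl⟩
  have hP0 : 0 < P := by rw [hP]; positivity
  rw [← hP] at h2 h3 ⊢
  have h4 : (nu F n₀ (k + 1) : ℝ) ≤ 2 * K * P := by
    refine h2.trans ?_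
    have h5 : P * (2 : ℝ) ^ (1 / (m : ℝ)) ≤ P * 2 :=
      mul_le_mul_of_nonneg_left (Pool.Agent.Q224.BH.rpow_one_le hF.pos) hP0.le
    calc K * (P * (2 : ℝ) ^ (1 / (m : ℝ))) ≤ K * (P * 2) := mul_le_mul_of_nonneg_left h5 hK.le
      _ = 2 * K * P := by ring
  have h5 : C * ((nu F n₀ (k + 1) : ℝ) - nu F n₀ k) / (k * Real.log 2) ≤ C * (2 * K * P) / (k * Real.log 2) := by
    refine div_le_div_of_nonneg_right (mul_le_mul_of_nonneg_left ?_ hC.le) (by positivity)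
    have : (0 : ℝ) ≤ nu F n₀ k := Nat.cast_nonneg _
    linarith
  have h6 : C * (2 * K * P) / (k * Real.log 2) = C * (2 * K) / Real.log 2 * (P / k) := by field_simp
  have h7 : ∑ n ∈ block k with n ∈ {v | ∃ n, n₀ ≤ n ∧ va F n = v}, 2 * pr z n ≤
      ∑ n ∈ Ico (nu F n₀ k) (nu F n₀ (k + 1)), 2 * pr z (va F n) := by
    have h8 : (block k).filter (fun n => n ∈ {v | ∃ n, n₀ ≤ n ∧ va F n = v}) ⊆
        (Ico (nu F n₀ k) (nu F n₀ (k + 1))).image (va F) := by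
      intro v hv
      rw [mem_filter, Set.mem_ofPred_eq, block, mem_Ico] at hv
      obtain ⟨hv1, n, hn1, hn2⟩ := hv
      rw [mem_image]
      refine ⟨n, ?_, hn2⟩
      rw [mem_Ico]
      rw [← hn2] at hv1
      exact ⟨Pool.Agent.Q224.BH.nu_le hn1 hv1.1, Pool.Agent.Q224.BH.lt_nu hM hv1.2⟩
    refine (sum_le_sum_of_subset_of_nonneg h8 (fun n _ _ => by have := pr_nonneg z n; linarith)).trans (le_of_eq ?_)
    rw [sum_image]
    intro x hx y hy hxy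
    rw [mem_coe, mem_Ico] at hx hy
    have hn0 := (Pool.Agent.Q224.BH.nu_mem hM k).1
    by_contra hne
    rcases Nat.lt_or_gt_of_ne hne with h9 | h9
    · exact absurd hxy (Pool.Agent.Q224.BH.va_strict hM (hn0.trans hx.1) h9).ne
    · exact absurd hxy (Pool.Agent.Q224.BH.va_strict hM (hn0.trans hy.1) h9).ne'
  refine h7.trans ?_
  rw [← mul_sum]
  unfold ex at h3
  nlinarith

/-- The laws without values, for all blocks. -/
theorem seqs (J : Jobs) (hz : Tendsto z atTop atTop) (hz0 : Tendsto (fun k : ℕ => (z k : ℝ) / k) atTop (𝓝 0))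
    (hF : Good F m C) (hM : Mono F n₀) : ∃ (C₁ : ℝ) (K : ℕ) (R : ℕ → Finset ℕ → ℝ), 0 < C₁ ∧ 1 ≤ K ∧
      (∀ k, IsLaw (pr z) (block k) (R k)) ∧ ∀ k, K ≤ k →
        (∀ T ∈ (block k).powerset, R k T ≠ 0 → ∀ n : ℕ, n₀ ≤ n → va F n ∉ T) ∧
          entOf (pr z) (block k) (R k) ≤ C₁ * ((2 : ℝ) ^ ((k : ℝ) / m) / k) := by
  classical
  obtain ⟨C₁, hC₁, h⟩ := cost J hz hz0 hF hM
  obtain ⟨K₂, hK₂⟩ := eventually_atTop.1 h
  obtain ⟨K, R, hR, hR2⟩ := seqW J (small8 hz0) {v | ∃ n, n₀ ≤ n ∧ va F n = v}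
  refine ⟨C₁, max 1 (max K K₂), R, hC₁, le_max_left _ _, hR, fun k hk => ?_⟩
  have hk1 : K ≤ k := ((le_max_left K K₂).trans (le_max_right 1 _)).trans hk
  have hk2 : K₂ ≤ k := ((le_max_right K K₂).trans (le_max_right 1 _)).trans hk
  obtain ⟨h1, _, h3⟩ := hR2 k hk1
  refine ⟨fun T hT hne n hn hnT => h1 T hT hne _ hnT ⟨n, hn, rfl⟩, h3.trans (hK₂ k hk2)⟩

/-- Independent blocks: infinitely many blocks without values. -/
theorem some_miss (J : Jobs) (hz : Tendsto z atTop atTop) (hz0 : Tendsto (fun k : ℕ => (z k : ℝ) / k) atTop (𝓝 0))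
    (hF : Good F m C) (hM : Mono F n₀) (hd : ∀ k, 0 ≤ d k) : ∃ (c : ℝ) (Ω : Type) (_ : MeasurableSpace Ω) (μ : Measure Ω)
      (_ : IsProbabilityMeasure μ) (A : Ω → Set ℕ), 0 < c ∧ Near (pr z) d μ A ∧
        (∀ᶠ k : ℕ in atTop, min 1 (c * (d k * k / (2 : ℝ) ^ ((k : ℝ) / m))) ≤ μ.real {ω | ¬ HitB (A ω) F n₀ k}) ∧
        (¬ Summable (fun k : ℕ => d k * k / (2 : ℝ) ^ ((k : ℝ) / m)) → ∀ᵐ ω ∂μ, ∃ᶠ k in atTop, ¬ HitB (A ω) F n₀ k) := by
  obtain ⟨C₁, K, R, hC₁, hK1, hR1, hR2⟩ := seqs J hz hz0 hF hM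
  obtain ⟨Ω, hΩ, μ, hμ, A, hA, h1, h2⟩ := miss_gen (p := pr z) (d := d) (w := fun k => C₁ * ((2 : ℝ) ^ ((k : ℝ) / m) / k))
    (Cl := fun _ T => ∀ n : ℕ, n₀ ≤ n → va F n ∉ T) (K := K) J.mixl J.exi (pr_ok z)
    (fun k hk => by
      have : (0 : ℝ) < k := by exact_mod_cast (show 0 < k by omega)
      positivity) hR1
    (fun k hk T hT hne => (hR2 k hk).1 T hT hne) (fun k hk => (hR2 k hk).2) hd
  have hmiss : ∀ k, ∀ ω, (∀ n : ℕ, n₀ ≤ n → va F n ∉ tr A (block k) ω) → ¬ HitB (A ω) F n₀ k := by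
    rintro k ω h3 ⟨n, hn1, hn2, hn3⟩
    exact h3 n hn1 (mem_tr.2 ⟨hn2, hn3⟩)
  refine ⟨1 / C₁, Ω, hΩ, μ, hμ, A, by positivity, hA, ?_, ?_⟩
  · filter_upwards [eventually_ge_atTop K] with k hk
    have h3 := h1 k hk
    rw [div_w (by omega) hC₁] at h3
    exact h3.trans (measureReal_mono (fun ω hω => hmiss k ω hω) (measure_ne_top _ _))
  · intro hns
    have h3 : ¬ Summable (fun k : ℕ => d k / (C₁ * ((2 : ℝ) ^ ((k : ℝ) / m) / k))) := by
      intro hs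
      apply hns
      refine (summable_nat_add_iff 1).1 ?_
      have h4 := ((summable_nat_add_iff 1).2 hs).mul_left C₁
      refine h4.congr (fun k => ?_)
      rw [div_w (by omega) hC₁, ← mul_assoc, mul_one_div_cancel hC₁.ne', one_mul]
    filter_upwards [h2 h3] with ω hω
    exact hω.mono (fun k hk => hmiss k ω hk)

/-- A common coin: finitely many values with positive probability. -/
theorem some_finite (J : Jobs) (hz : Tendsto z atTop atTop) (hz0 : Tendsto (fun k : ℕ => (z k : ℝ) / k) atTop (𝓝 0))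
    (hF : Good F m C) (hM : Mono F n₀) {c : ℝ} (hc : 0 < c)
    (hd : ∀ᶠ k : ℕ in atTop, c ≤ d k * k / (2 : ℝ) ^ ((k : ℝ) / m)) :
    ¬ AllNear (pr z) d (fun S => {n : ℕ | va F n ∈ S}.Infinite) := by
  obtain ⟨C₁, K, R, hC₁, hK1, hR1, hR2⟩ := seqs J hz hz0 hF hM
  obtain ⟨q, hq⟩ : ∃ q : ℝ, q = min 1 (c / C₁) := ⟨_, rfl⟩
  have hq0 : 0 < q := by rw [hq]; exact lt_min one_pos (by positivity)
  have hq1 : q ≤ 1 := by rw [hq]; exact min_le_left _ _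
  obtain ⟨Ω, hΩ, μ, hμ, A, hA, h2⟩ := coin_gen (p := pr z) (d := d) (K := K)
    (Cl := fun _ T => ∀ n : ℕ, n₀ ≤ n → va F n ∉ T) J.mixl J.exc (pr_ok z) hR1
    (fun k hk T hT hne => (hR2 k hk).1 T hT hne) hq0.le hq1 (by
      filter_upwards [eventually_ge_atTop K, hd] with k hk hk2
      have hk0 : (0 : ℝ) < k := by exact_mod_cast (show 0 < k by omega)
      have h2 : q ≤ c / C₁ := by rw [hq]; exact min_le_right _ _
      have hP : (0 : ℝ) < (2 : ℝ) ^ ((k : ℝ) / m) := by positivity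
      refine (mul_le_mul_of_nonneg_left (hR2 k hk).2 hq0.le).trans ?_
      calc q * (C₁ * ((2 : ℝ) ^ ((k : ℝ) / m) / k)) ≤ c / C₁ * (C₁ * ((2 : ℝ) ^ ((k : ℝ) / m) / k)) :=
            mul_le_mul_of_nonneg_right h2 (by positivity)
        _ = c * ((2 : ℝ) ^ ((k : ℝ) / m) / k) := by field_simp
        _ ≤ d k * k / (2 : ℝ) ^ ((k : ℝ) / m) * ((2 : ℝ) ^ ((k : ℝ) / m) / k) :=
            mul_le_mul_of_nonneg_right hk2 (by positivity)
        _ = d k := by field_simp)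
  intro hall
  have h1 := hall Ω μ A hA
  have h3 : {ω | ∀ k, K ≤ k → ∀ n : ℕ, n₀ ≤ n → va F n ∉ tr A (block k) ω} ⊆ {ω | ¬ {n : ℕ | va F n ∈ A ω}.Infinite} := by
    intro ω hω
    simp only [Set.mem_ofPred_eq] at hω ⊢
    rw [Set.not_infinite]
    obtain ⟨N, hN⟩ := eventually_atTop.1 ((Pool.Agent.Q224.BH.va_tendsto hM).eventually_ge_atTop (2 ^ K))
    refine (Set.finite_Iio (max n₀ N)).subset (fun n hn => ?_)
    simp only [Set.mem_ofPred_eq] at hn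
    rw [Set.mem_Iio]
    by_contra hnK
    rw [not_lt] at hnK
    have hn0 : n₀ ≤ n := (le_max_left _ _).trans hnK
    have hn1 : 2 ^ K ≤ va F n := hN n ((le_max_right _ _).trans hnK)
    have hv0 : va F n ≠ 0 := by
      have : 1 ≤ 2 ^ K := Nat.one_le_two_pow
      omega
    obtain ⟨k, hk⟩ : ∃ k, k = Nat.log 2 (va F n) := ⟨_, rfl⟩
    have hk1 : 2 ^ k ≤ va F n := by rw [hk]; exact Nat.pow_log_le_self 2 hv0
    have hk2 : va F n < 2 ^ (k + 1) := by rw [hk]; exact Nat.lt_pow_succ_log_self (by norm_num : 1 < 2) _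
    have hkK : K ≤ k := by rw [hk]; exact Nat.le_log_of_pow_le (by norm_num) hn1
    refine hω k hkK n hn0 (mem_tr.2 ⟨?_, hn⟩)
    rw [block, mem_Ico]
    exact ⟨hk1, hk2⟩
  have h4 : μ {ω | ¬ {n : ℕ | va F n ∈ A ω}.Infinite} = 0 := by
    rw [ae_iff] at h1
    exact h1
  have h5 : μ.real {ω | ∀ k, K ≤ k → ∀ n : ℕ, n₀ ≤ n → va F n ∉ tr A (block k) ω} ≤ 0 := by
    refine (measureReal_mono h3 (measure_ne_top _ _)).trans ?_
    rw [Measure.real, h4, ENNReal.toReal_zero]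
  exact absurd (h2.trans h5) (not_le.2 hq0)

/-! ## The three thresholds -/

theorem part_one (J : Jobs) (hz : Tendsto z atTop atTop) (hz0 : Tendsto (fun k : ℕ => (z k : ℝ) / k) atTop (𝓝 0))
    (hF : Good F m C) (hM : Mono F n₀) (hd : ∀ k, 0 ≤ d k) :
    (Summable (fun k : ℕ => d k * k / (2 : ℝ) ^ ((k : ℝ) / m)) ↔ AllNear (pr z) d (fun S => Asy S F m C)) ∧
    (Summable (fun k : ℕ => d k * k / (2 : ℝ) ^ ((k : ℝ) / m)) ↔ AllNear (pr z) d (fun S => ∀ᶠ k in atTop, HitB S F n₀ k)) ∧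
    (¬ Summable (fun k : ℕ => d k * k / (2 : ℝ) ^ ((k : ℝ) / m)) →
      SomeNear (pr z) d (fun S => ∃ᶠ k in atTop, ¬ HitB S F n₀ k)) := by
  have h1 : Summable (fun k : ℕ => d k * k / (2 : ℝ) ^ ((k : ℝ) / m)) → AllNear (pr z) d (fun S => Asy S F m C) :=
    fun hs => all_asy J hz hz0 hF hM hs
  have h2 : AllNear (pr z) d (fun S => Asy S F m C) → AllNear (pr z) d (fun S => ∀ᶠ k in atTop, HitB S F n₀ k) := by
    intro h Ω _ μ _ A hA
    filter_upwards [h Ω μ A hA] with ω hω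
    filter_upwards [J.bhit J.mono F m C n₀ (A ω) hF hM hω] with k hk
    exact (hitB_iff hM).2 hk
  have h3 : ¬ Summable (fun k : ℕ => d k * k / (2 : ℝ) ^ ((k : ℝ) / m)) →
      SomeNear (pr z) d (fun S => ∃ᶠ k in atTop, ¬ HitB S F n₀ k) := by
    intro hns
    obtain ⟨c, Ω, hΩ, μ, hμ, A, _, hA, _, h⟩ := some_miss J hz hz0 hF hM hd
    exact ⟨Ω, hΩ, μ, hμ, A, hA, h hns⟩
  have h4 : AllNear (pr z) d (fun S => ∀ᶠ k in atTop, HitB S F n₀ k) →
      Summable (fun k : ℕ => d k * k / (2 : ℝ) ^ ((k : ℝ) / m)) := by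
    intro h
    by_contra hns
    refine not_all (h3 hns) (fun S hS h5 => ?_) h
    obtain ⟨k, hk1, hk2⟩ := (hS.and_eventually h5).exists
    exact hk1 hk2
  exact ⟨⟨h1, fun h => h4 (h2 h)⟩, ⟨fun h => h2 (h1 h), h4⟩, h3⟩

theorem part_two (J : Jobs) (hz : Tendsto z atTop atTop) (hz0 : Tendsto (fun k : ℕ => (z k : ℝ) / k) atTop (𝓝 0))
    (hF : Good F m C) (hM : Mono F n₀) (hd : ∀ k, 0 ≤ d k) :
    (Tendsto (fun k : ℕ => d k * k / (2 : ℝ) ^ ((k : ℝ) / m)) atTop (𝓝 0) ↔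
      ∀ e : ℝ, 0 < e → VanNear (pr z) d (fun k S => OffB F m n₀ C e k S)) ∧
    (Tendsto (fun k : ℕ => d k * k / (2 : ℝ) ^ ((k : ℝ) / m)) atTop (𝓝 0) ↔
      VanNear (pr z) d (fun k S => ¬ HitB S F n₀ k)) := by
  have h1 : Tendsto (fun k : ℕ => d k * k / (2 : ℝ) ^ ((k : ℝ) / m)) atTop (𝓝 0) →
      ∀ e : ℝ, 0 < e → VanNear (pr z) d (fun k S => OffB F m n₀ C e k S) := fun hs e he => van_off J hz hz0 hF hM hs he
  have h2 : (∀ e : ℝ, 0 < e → VanNear (pr z) d (fun k S => OffB F m n₀ C e k S)) →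
      VanNear (pr z) d (fun k S => ¬ HitB S F n₀ k) := by
    intro h Ω _ μ _ A hA
    obtain ⟨e, he0, he⟩ := off_of_not_hit J hF hM
    have h3 := h e he0 Ω μ A hA
    refine squeeze_zero' (Eventually.of_forall (fun k => measureReal_nonneg)) ?_ h3
    filter_upwards [he] with k hk
    exact measureReal_mono (fun ω hω => hk _ hω) (measure_ne_top _ _)
  have h3 : VanNear (pr z) d (fun k S => ¬ HitB S F n₀ k) →
      Tendsto (fun k : ℕ => d k * k / (2 : ℝ) ^ ((k : ℝ) / m)) atTop (𝓝 0) := by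
    intro h
    obtain ⟨c, Ω, hΩ, μ, hμ, A, hc, hA, h4, _⟩ := some_miss J hz hz0 hF hM hd
    have h5 := h Ω μ A hA
    have h6 : Tendsto (fun k : ℕ => min 1 (c * (d k * k / (2 : ℝ) ^ ((k : ℝ) / m)))) atTop (𝓝 0) := by
      refine squeeze_zero' (Eventually.of_forall (fun k => ?_)) h4 h5
      have := hd k
      exact le_min zero_le_one (by positivity)
    have h7 : Tendsto (fun k : ℕ => 1 / c * min 1 (c * (d k * k / (2 : ℝ) ^ ((k : ℝ) / m)))) atTop (𝓝 (1 / c * 0)) :=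
      h6.const_mul _
    rw [mul_zero] at h7
    refine h7.congr' ?_
    filter_upwards [h6.eventually (gt_mem_nhds one_pos)] with k hk
    rcases min_choice 1 (c * (d k * k / (2 : ℝ) ^ ((k : ℝ) / m))) with h8 | h8
    · rw [h8] at hk
      exact absurd hk (lt_irrefl _)
    · rw [h8, ← mul_assoc, one_div_mul_cancel hc.ne', one_mul]
  exact ⟨⟨h1, fun h => h3 (h2 h)⟩, ⟨fun h => h2 (h1 h), h3⟩⟩

theorem part_three (J : Jobs) (hz : Tendsto z atTop atTop) (hz0 : Tendsto (fun k : ℕ => (z k : ℝ) / k) atTop (𝓝 0))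
    (hF : Good F m C) (hM : Mono F n₀) :
    (∀ c : ℝ, 0 < c → ∃ᶠ k : ℕ in atTop, d k * k / (2 : ℝ) ^ ((k : ℝ) / m) < c) ↔
      AllNear (pr z) d (fun S => {n : ℕ | va F n ∈ S}.Infinite) := by
  refine ⟨fun hs => all_inf J hz hz0 hF hM hs, fun h => ?_⟩
  by_contra hcon
  push Not at hcon
  obtain ⟨c, hc, h1⟩ := hcon
  exact some_finite J hz hz0 hF hM hc h1 h

/-- All polynomials of small degree at once. -/
theorem part_four (J : Jobs) (hz : Tendsto z atTop atTop) (hz0 : Tendsto (fun k : ℕ => (z k : ℝ) / k) atTop (𝓝 0))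
    {δ : ℝ} (hd : ∀ k : ℕ, 0 ≤ d k ∧ d k ≤ (2 : ℝ) ^ (δ * k)) :
    AllNear (pr z) d (fun S => ∀ (F : ℤ[X]) (m : ℕ) (C : ℝ), Good F m C → δ * m < 1 → Asy S F m C) := by
  intro Ω _ μ _ A hA
  have hcount : Countable ℤ[X] := Pool.Agent.Q257.BH.countable_poly
  rw [ae_all_iff]
  intro F
  by_cases hF : ∃ (m : ℕ) (C : ℝ), Good F m C ∧ δ * m < 1
  · obtain ⟨m, C, hF, hm⟩ := hF
    obtain ⟨⟨n₀, hM⟩, _⟩ := J.mono F (by rw [hF.deg]; exact hF.pos) hF.lead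
    have hm0 : (0 : ℝ) < m := by exact_mod_cast hF.pos
    have hs : Summable (fun k : ℕ => d k * k / (2 : ℝ) ^ ((k : ℝ) / m)) := by
      obtain ⟨r, hr⟩ : ∃ r : ℝ, r = (2 : ℝ) ^ (δ - 1 / (m : ℝ)) := ⟨_, rfl⟩
      have hr0 : 0 < r := by rw [hr]; positivity
      have h1 : δ < 1 / (m : ℝ) := by rw [lt_div_iff₀ hm0]; exact hm
      have hr1 : r < 1 := by
        rw [hr]
        exact Real.rpow_lt_one_of_one_lt_of_neg (by norm_num) (by linarith)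
      have h := summable_pow_mul_geometric_of_norm_lt_one 1 (r := r) (by rw [Real.norm_eq_abs, abs_of_pos hr0]; exact hr1)
      refine Summable.of_nonneg_of_le (fun k => ?_) (fun k => ?_) h
      · have := (hd k).1
        positivity
      · have h2 : r ^ k = (2 : ℝ) ^ (δ * k) / (2 : ℝ) ^ ((k : ℝ) / m) := by
          rw [hr, ← Real.rpow_natCast, ← Real.rpow_mul (by norm_num), ← Real.rpow_sub (by norm_num)]
          congr 1
          ring
        rw [h2, pow_one]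
        have h3 : d k * k / (2 : ℝ) ^ ((k : ℝ) / m) ≤ (2 : ℝ) ^ (δ * k) * k / (2 : ℝ) ^ ((k : ℝ) / m) :=
          div_le_div_of_nonneg_right (mul_le_mul_of_nonneg_right (hd k).2 (Nat.cast_nonneg k)) (by positivity)
        refine h3.trans (le_of_eq ?_)
        ring
    filter_upwards [all_asy J hz hz0 hF hM hs Ω μ A hA] with ω hω m' C' hF' _
    have e1 : m' = m := by rw [← hF.deg, ← hF'.deg]
    subst e1
    have e2 : C' = C := tendsto_nhds_unique hF'.conv hF.conv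
    rw [e2]
    exact hω
  · refine Eventually.of_forall (fun ω m C h1 h2 => ?_)
    exact absurd ⟨m, C, h1, h2⟩ hF

/-- One random set with finitely many values of all polynomials of large degree. -/
theorem part_five (J : Jobs) (hz8 : ∀ᶠ k : ℕ in atTop, 8 * z k ≤ k) {δ : ℝ} (hδ : 0 < δ) :
    SomeNear (pr z) (fun k : ℕ => (2 : ℝ) ^ (δ * k)) (fun S => ∀ F : ℤ[X], 0 < F.leadingCoeff → 1 < δ * F.natDegree →
      {n : ℕ | va F n ∈ S}.Finite) := by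
  classical
  obtain ⟨W, hW1, hW2⟩ := J.wset δ hδ
  obtain ⟨K, R, hR, hR2⟩ := seqW J hz8 W
  obtain ⟨Ω, hΩ, μ, hμ, A, hA, h⟩ := sure_gen (p := pr z) (d := fun k : ℕ => (2 : ℝ) ^ (δ * k)) (K := K)
    (Cl := fun _ T => ∀ n ∈ T, n ∉ W) J.mixl J.exc (pr_ok z) hR (fun k hk => (hR2 k hk).1) (by
      filter_upwards [eventually_ge_atTop K] with k hk
      obtain ⟨_, h2, h3⟩ := hR2 k hk
      refine h3.trans ((sum_le_card_nsmul _ _ 1 (fun n hn => ?_)).trans ?_)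
      · have := h2 n (mem_filter.1 hn).1
        linarith
      · rw [nsmul_eq_mul, mul_one]
        refine le_trans (le_of_eq ?_) (hW1 k)
        rfl)
  refine ⟨Ω, hΩ, μ, hμ, A, hA, ?_⟩
  filter_upwards [h] with ω hω F hl hdeg
  have hdeg1 : 1 ≤ F.natDegree := by
    by_contra hcon
    have h0 : F.natDegree = 0 := by omega
    rw [h0, Nat.cast_zero, mul_zero] at hdeg
    linarith
  obtain ⟨⟨n₀, hM⟩, _⟩ := J.mono F hdeg1 hl
  obtain ⟨N₁, hN₁⟩ := eventually_atTop.1 (hW2 F hl hdeg)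
  obtain ⟨N₂, hN₂⟩ := eventually_atTop.1 ((Pool.Agent.Q224.BH.va_tendsto hM).eventually_ge_atTop (2 ^ K))
  refine (Set.finite_Iio (max N₁ N₂)).subset (fun n hn => ?_)
  simp only [Set.mem_ofPred_eq] at hn
  rw [Set.mem_Iio]
  by_contra hnK
  rw [not_lt] at hnK
  have hn1 : 2 ^ K ≤ va F n := hN₂ n ((le_max_right _ _).trans hnK)
  have hv0 : va F n ≠ 0 := by
    have : 1 ≤ 2 ^ K := Nat.one_le_two_pow
    omega
  obtain ⟨k, hk⟩ : ∃ k, k = Nat.log 2 (va F n) := ⟨_, rfl⟩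
  have hk1 : 2 ^ k ≤ va F n := by rw [hk]; exact Nat.pow_log_le_self 2 hv0
  have hk2 : va F n < 2 ^ (k + 1) := by rw [hk]; exact Nat.lt_pow_succ_log_self (by norm_num : 1 < 2) _
  have hkK : K ≤ k := by rw [hk]; exact Nat.le_log_of_pow_le (by norm_num) hn1
  refine hω k hkK (va F n) (mem_tr.2 ⟨?_, hn⟩) (hN₁ n ((le_max_left _ _).trans hnK))
  rw [block, mem_Ico]
  exact ⟨hk1, hk2⟩

end

end Pool.Agent.Q120.BH
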