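import Pool.Agent.Q120.TT.Fin
import Pool.Agent.Q120.RZ.Stm

/-!
# Project BH: the exact entropy thresholds for the Bateman–Horn conjecture

Reference law, classes and notation as in the project TT (`Q120.TT.Stm`, `Q120.TT.Main`, `Q120.TT.Fin`): the sieved models of a
level `z` (`z k → ∞`, `z k / k → 0`), probabilities `pr z n`; `Near (pr z) d μ A`: `A` is ANY random set (without elements of
probability `0`) whose relative entropy in the block `[2 ^ k, 2 ^ (k + 1))` is at most `d k` for large `k`. `F` is an integer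
polynomial of degree `m`, with positive leading coefficient and convergent Bateman–Horn product `C > 0`. Results:
(1) for all such `A` almost surely `#{n < x : F n ∈ A} ~ (C / m) x / log x` iff `∑ d k * k / 2 ^ (k / m) < ∞`; (2) in probability, in
the single blocks, iff `d k * k / 2 ^ (k / m) → 0`; (3) almost surely `A` contains infinitely many values iff
`liminf d k * k / 2 ^ (k / m) = 0`; (4) for `d k = 2 ^ (δ k)` the Bateman–Horn asymptotics hold almost surely for all `F` of degree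
`m < 1 / δ` at once, and one `A` of the class contains almost surely only finitely many values of each polynomial of degree
`> 1 / δ`. For `F = X ^ 2 + a` (`-a` not a square) everything is unconditional (job SQA).

Each job is a definition `J_… : Prop`; a theorem `t_… : J_…` is to be proved. The proofs are complete in the docstrings.
Proved and useful: `Q299.RZ.t_TAIL` (module `Pool.Agent.Q299.RZ.Tail`), `Pool.Agent.Q150.TT.t_MIXL`, the lemmas
`Pool.Agent.Q120.TT.{sum_exists_le, pow_large, contract, pr_ok}` (modules `Q120.TT.Main`, `Q120.TT.Det`),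
`Pool.Agent.Q177.TT.pr_small`, the proof of `Pool.Agent.Q150.TT.t_MEAN`, of `Pool.Agent.Q120.TT.bad_model`, `Q120.TT.cum`,
`Q120.TT.asym_of_good`, `Q120.TT.hit_of_asym` (very similar to jobs below).
-/

set_option autoImplicit false

namespace Pool.Agent.Q120.BH

open Finset MeasureTheory Filter Pool.Agent.Q120.ET Pool.Agent.Q120.GM Pool.Agent.Q120.CL Pool.Agent.Q120.MG
  Pool.Agent.Q120.HL Pool.Agent.Q112.LE Pool.Agent.Q120.TT Polynomial
open scoped Topology

/-- The value of the polynomial (`0` if it is negative). -/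
noncomputable def va (F : ℤ[X]) (n : ℕ) : ℕ := (F.eval (n : ℤ)).toNat

open Classical in
/-- The number of `n ∈ [a, b)` with `F n ∈ S`. -/
noncomputable def hit (S : Set ℕ) (F : ℤ[X]) (a b : ℕ) : ℕ := ((Ico a b).filter (fun n => va F n ∈ S)).card

/-- Its expectation in the model with independent elements. -/
noncomputable def ex (p : ℕ → ℝ) (F : ℤ[X]) (a b : ℕ) : ℝ := ∑ n ∈ Ico a b, p (va F n)

open Classical in
/-- The number of roots modulo `q`. -/
noncomputable def rho (F : ℤ[X]) (q : ℕ) : ℕ := ((range q).filter (fun n : ℕ => (q : ℤ) ∣ F.eval (n : ℤ))).card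

/-- The partial product of Bateman and Horn. -/
noncomputable def Cz (F : ℤ[X]) (z : ℕ) : ℝ := ∏ p ∈ (range z).filter Nat.Prime, (1 - (rho F p : ℝ) / p) / (1 - 1 / (p : ℝ))

/-- `F` has degree `m ≥ 1`, positive leading coefficient, and the convergent product `C > 0`. -/
structure Good (F : ℤ[X]) (m : ℕ) (C : ℝ) : Prop where
  deg : F.natDegree = m
  pos : 1 ≤ m
  lead : 0 < F.leadingCoeff
  conv : Tendsto (fun z => Cz F z) atTop (𝓝 C)
  Cpos : 0 < C

/-- The values are positive and increasing from `n₀` on. -/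
def Mono (F : ℤ[X]) (n₀ : ℕ) : Prop := ∀ n : ℕ, n₀ ≤ n → 1 ≤ va F n ∧ va F n < va F (n + 1)

/-- The first `n ≥ n₀` with a value in or above the block `k`. -/
noncomputable def nu (F : ℤ[X]) (n₀ k : ℕ) : ℕ := sInf {n | n₀ ≤ n ∧ 2 ^ k ≤ va F n}

/-- **Job MONO.** Polynomials.
Proof. With the real polynomial `F.map (Int.castRingHom ℝ)`: `F n / n ^ m → a = leadingCoeff > 0` (`Polynomial.isEquivalent_atTop_lead`);
`F (n + 1) - F n` is a polynomial in `n` of degree `m - 1` with leading coefficient `m a > 0` (or the derivative is positive for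
large `x`: `Polynomial.tendsto_atTop_of_leadingCoeff_nonneg`, and a constant `> 0` for `m = 1`), so it is positive for large `n`. So
`Mono F n₀` for some `n₀`. If `Mono F n₀` then `nu k → ∞`, `F (nu k - 1) < 2 ^ k ≤ F (nu k)` for large `k`, so
`a (nu k) ^ m / 2 ^ k → 1` and `nu k / 2 ^ (k / m) → a ^ (-1/m)`. `log (F n) = m log n + log a + o(1)`. -/
def J_MONO : Prop := ∀ F : ℤ[X], 1 ≤ F.natDegree → 0 < F.leadingCoeff → (∃ n₀ : ℕ, Mono F n₀) ∧
  (∃ c : ℝ, 0 < c ∧ ∀ n₀ : ℕ, Mono F n₀ →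
    Tendsto (fun k : ℕ => (nu F n₀ k : ℝ) / (2 : ℝ) ^ ((k : ℝ) / F.natDegree)) atTop (𝓝 c)) ∧
  Tendsto (fun n : ℕ => Real.log (va F n) / Real.log n) atTop (𝓝 (F.natDegree : ℝ))

open Classical in
/-- **Job BTAIL** (uses RZ.TAIL). Deviations of the number of values.
Proof. As in `t_TAILT`: there is a model `A` with the probabilities `p` (`GM.isModel`, `prodMeasure`), and the sum is the
probability of the event for `tr A (block k) ω` (`ET.real_event`, `Pool.Agent.Q111.GE.t_LAW`). `va F` is injective on `Ico a b`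
(`Mono`), so `hit S F a b = num' S I`, `ex p F a b = ∑ v ∈ I, p v` with `I = (Ico a b).image (va F) ⊆ block k`, and
`num' (A ω) I = num' (tr A (block k) ω) I`. TAIL for `I`. -/
def J_BTAIL : Prop := Pool.Agent.Q120.RZ.J_TAIL → ∀ (F : ℤ[X]) (n₀ : ℕ), Mono F n₀ → ∀ p : ℕ → ℝ, (∀ n, 0 ≤ p n ∧ p n ≤ 1) →
  ∀ k a b : ℕ, n₀ ≤ a → a ≤ b → (∀ n ∈ Ico a b, va F n ∈ block k) → ∀ V t : ℝ, ex p F a b ≤ V → 0 < t →
    ∑ T ∈ (block k).powerset with t ≤ |(hit ((T : Finset ℕ) : Set ℕ) F a b : ℝ) - ex p F a b|, prodOn p (block k) T ≤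
      2 * Real.exp (-(t ^ 2 / (4 * (V + t))))

/-- **Job BMEAN** (uses MONO). The expected number of values.
Proof. `V = Vf (z k)`; `V k log 2 ≥ 1` for large `k` (`le_Vf2`: `1 / V ≤ z k + 1`, and `z k / k → 0`), so for `va F n` in the block
`pr z (va F n)` is `0` if a prime `< z k` divides `va F n`, and otherwise between `1 / (V (k + 1) log 2)` and `1 / (V k log 2)`
(`pr_le`, `le_pr`, `pr_zero`). Let `N` be the number of the `n ∈ [a, b)` with `va F n` free of primes `< z k`. The condition is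
periodic modulo `P = PQ (z k) ≤ 4 ^ (z k)`, with `P ∏ (1 - rho F p / p)` solutions in a period (Chinese remainder theorem,
compare `NA_period`, `NA_near` in `HL.H2`), so `|N - (b - a) ∏ (1 - rho F p / p)| ≤ P`. Divide by `V k log 2`:
`∏ (1 - rho F p / p) / V = Cz F (z k) → C`; `b - a ≤ nu F n₀ (k + 1) ≤ C' 2 ^ (k / m)` by MONO;
`4 ^ (z k) (z k + 1) ≤ ε 2 ^ (k / m)` for large `k`. -/
def J_BMEAN : Prop := J_MONO → ∀ (z : ℕ → ℕ) (F : ℤ[X]) (m : ℕ) (C : ℝ) (n₀ : ℕ), Good F m C → Mono F n₀ →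
  Tendsto z atTop atTop → Tendsto (fun k : ℕ => (z k : ℝ) / k) atTop (𝓝 0) → ∀ ε : ℝ, 0 < ε → ∀ᶠ k : ℕ in atTop,
    ∀ a b : ℕ, n₀ ≤ a → a ≤ b → (∀ n ∈ Ico a b, va F n ∈ block k) →
      |ex (pr z) F a b - C * ((b : ℝ) - a) / (k * Real.log 2)| ≤ ε * ((2 : ℝ) ^ ((k : ℝ) / m) / k)

/-- Some initial part of the block has the wrong number of values. -/
def BadB (F : ℤ[X]) (m n₀ : ℕ) (C : ℝ) (k : ℕ) (e : ℝ) (S : Set ℕ) : Prop := ∃ b : ℕ, nu F n₀ k ≤ b ∧ b ≤ nu F n₀ (k + 1) ∧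
  e * ((2 : ℝ) ^ ((k : ℝ) / m) / k) ≤ |(hit S F (nu F n₀ k) b : ℝ) - C * ((b : ℝ) - nu F n₀ k) / (k * Real.log 2)|

open Classical in
/-- **Job BBAD** (uses RZ.TAIL, MONO, BTAIL, BMEAN). The bad event is very unlikely in the model.
Proof. As `Pool.Agent.Q120.TT.bad_model`. For `n ∈ [nu k, nu (k + 1))` `va F n ∈ block k` (`Mono`, definition of `nu`; the set in
`nu` is not empty as `va F n ≥ n - n₀`). For large `k` by BMEAN the event for `b` implies `e w / 2 ≤ |hit - ex|`, `w = 2 ^ (k / m) / k`, and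
`ex ≤ C₁ w` (`nu (k + 1) ≤ C' 2 ^ (k / m)`). BTAIL with `t = e w / 2`; the number of `b` is at most `2 ^ (k + 1) + 1`
(`nu (k + 1) - nu k ≤ 2 ^ (k + 1)` as the values are distinct); `2 ^ (k + 3) exp (-c₂ w) ≤ exp (-c₂ w / 2)` for large `k`. -/
def J_BBAD : Prop := Pool.Agent.Q120.RZ.J_TAIL → J_MONO → J_BTAIL → J_BMEAN → ∀ (z : ℕ → ℕ) (F : ℤ[X]) (m : ℕ) (C : ℝ) (n₀ : ℕ),
  Good F m C → Mono F n₀ → Tendsto z atTop atTop → Tendsto (fun k : ℕ => (z k : ℝ) / k) atTop (𝓝 0) →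
    ∀ e : ℝ, 0 < e → ∃ c : ℝ, 0 < c ∧ ∀ᶠ k : ℕ in atTop,
      ∑ T ∈ (block k).powerset with BadB F m n₀ C k e ((T : Finset ℕ) : Set ℕ), prodOn (pr z) (block k) T ≤
        Real.exp (-(c * ((2 : ℝ) ^ ((k : ℝ) / m) / k)))

/-- **Job BCUM** (uses MONO). From the blocks to the asymptotic formula (deterministic).
Proof. As `Q120.TT.cum`, `Q120.TT.asym_of_good`. `ν k = nu F n₀ k`, `ν k / 2 ^ (k / m) → c > 0` (MONO). Let `w k = 2 ^ (k / m) / k`, `A k = hit S F 0 (ν k)`,
`B k = C ν k / (k log 2)`. `A (k + 1) - A k = C (ν (k + 1) - ν k) / (k log 2) + o(w k)` and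
`B (k + 1) - B k = C (ν (k + 1) - ν k) / (k log 2) + O(w k / k)`, so `|A - B|` grows by `o(w k)` only; as `w k / w (k + 1) → 2 ^ (-1/m) < 1`,
`|A k - B k| / w k → 0` (contraction). For `ν k ≤ x ≤ ν (k + 1)`: `hit S F 0 x = C x / (k log 2) + o(w k)`, `w k ≤ C' x / k`, and
`log x / k → log 2 / m`. -/
def J_BCUM : Prop := J_MONO → ∀ (F : ℤ[X]) (m : ℕ) (C : ℝ) (n₀ : ℕ) (S : Set ℕ), Good F m C → Mono F n₀ →
  (∀ e : ℝ, 0 < e → ∀ᶠ k : ℕ in atTop, ¬ BadB F m n₀ C k e S) →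
    Tendsto (fun x : ℕ => (hit S F 0 x : ℝ) / (x / Real.log x)) atTop (𝓝 (C / m))

/-- **Job BHIT** (uses MONO). The asymptotic formula gives a value in every large block.
Proof. As `Q120.TT.hit_of_asym`: `ν k = nu F n₀ k → ∞`, `ν (k + 1) / ν k → 2 ^ (1/m) > 1`, `log ν (k + 1) / log ν k → 1`, so
`(hit S F 0 (ν (k + 1)) - hit S F 0 (ν k)) / (ν k / log ν k) → (C / m) (2 ^ (1/m) - 1) > 0`. -/
def J_BHIT : Prop := J_MONO → ∀ (F : ℤ[X]) (m : ℕ) (C : ℝ) (n₀ : ℕ) (S : Set ℕ), Good F m C → Mono F n₀ →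
  Tendsto (fun x : ℕ => (hit S F 0 x : ℝ) / (x / Real.log x)) atTop (𝓝 (C / m)) →
    ∀ᶠ k : ℕ in atTop, 1 ≤ hit S F (nu F n₀ k) (nu F n₀ (k + 1))

open Classical in
/-- **Job DELW.** The cheapest law without elements of `W`.
Proof. `prodOn p' B` is a law (`t_MIXL`); `prodOn p B T = 0` gives `n ∈ T` with `p n = 0` (as `p ≤ 1/2`), so `p' n = 0`. If
`prodOn p' B T ≠ 0` then `T` contains no element of `W`, and `prodOn p' B T / prodOn p B T = ∏_{n ∈ B, n ∈ W} (1 - p n)⁻¹`, the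
logarithm is at most `∑ 2 p n` (`-log (1 - p) ≤ 2 p` for `p ≤ 1/2`); sum over `T`. -/
def J_DELW : Prop := ∀ (p : ℕ → ℝ) (B : Finset ℕ) (W : Set ℕ), (∀ n ∈ B, 0 ≤ p n ∧ p n ≤ 1 / 2) →
  IsLaw p B (prodOn (fun n => if n ∈ W then 0 else p n) B) ∧
  (∀ T ∈ B.powerset, prodOn (fun n => if n ∈ W then 0 else p n) B T ≠ 0 → ∀ n ∈ T, n ∉ W) ∧
  entOf p B (prodOn (fun n => if n ∈ W then 0 else p n) B) ≤ ∑ n ∈ B with n ∈ W, 2 * p n

open Classical in
/-- **Job WSET.** A sparse set containing almost all values of all polynomials of large degree.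
Proof. Let `F_0, F_1, …` be an enumeration of the (countable) set of the integer polynomials with `0 < leadingCoeff` and
`1 < δ * natDegree` (`m_j` the degrees). As `va F_j n ≥ n ^ m_j / 2` for large `n` there are `c_j`, `M_j` with
`#{n ≥ M_j : va F_j n ∈ block k} ≤ c_j 2 ^ (k / m_j)` for all `k`; as `1 / m_j < δ` there is `K_j` with
`c_j 2 ^ (k / m_j) ≤ 2 ^ (δ k) / 2 ^ (j + 1)` for `k ≥ K_j`, and `N_j ≥ M_j` with `va F_j n ≥ 2 ^ K_j` for `n ≥ N_j`. Then
`#{n ≥ N_j : va F_j n ∈ block k} ≤ 2 ^ (δ k) / 2 ^ (j + 1)` for ALL `k`. `W = ⋃_j {va F_j n : n ≥ N_j}`; the sum over `j` is at most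
`2 ^ (δ k)` (the block is finite, so finitely many `j` matter; or all `j`, `HasSum`). -/
def J_WSET : Prop := ∀ δ : ℝ, 0 < δ → ∃ W : Set ℕ, (∀ k : ℕ, (((block k).filter (fun n => n ∈ W)).card : ℝ) ≤ (2 : ℝ) ^ (δ * k)) ∧
  ∀ F : ℤ[X], 0 < F.leadingCoeff → 1 < δ * F.natDegree → ∀ᶠ n : ℕ in atTop, va F n ∈ W

/-- **Job SQA.** The polynomials `X ^ 2 + a`.
Proof. `Pool.Agent.Y781.JR.RR_conv a` (module `Pool.Agent.Y781.JR.Dens`) is the convergence of the product over the odd primes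
`p < z` of `1 - (-a | p) / (p - 1)` to a positive limit. For an odd prime `p` `rho F p = 1 + (-a | p)`
(`legendreSym`/`jacobiSym`, also for `p ∣ a`; see `rho_eq` in the same module), and `rho F 2 = 1`, so the factor of `p` in `Cz` is
`1 - (-a | p) / (p - 1)`, and the one of `2` is `1`. -/
def J_SQA : Prop := ∀ a : ℤ, ¬ IsSquare (-a) → ∃ C : ℝ, Good (X ^ 2 + Polynomial.C a) 2 C

end Pool.Agent.Q120.BH
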